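import Pool.Agent.Helper19.HO.Defs

/-!
Project HO, piece HO-4: the recursion on the boundary of the cross-polytope.
-/

namespace Pool.Agent.Helper19.HO

private theorem ho4_sum_eq_zero {k : ℕ} (f : (Fin (k + 1) → Bool) → ZMod 2) (j : Fin (k + 1))
    (hf : ∀ δ, f (Function.update δ j (!(δ j))) = f δ) : ∑ δ : Fin (k + 1) → Bool, f δ = 0 := by
  refine Finset.sum_involution (fun δ _ => Function.update δ j (!(δ j))) ?_ ?_ ?_ ?_
  · intro δ _
    rw [hf, ← two_mul]
    have : (2 : ZMod 2) = 0 := by decide
    rw [this, zero_mul]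
  · intro δ _ _ h
    have := congrFun h j
    simp at this
  · intro δ _
    exact Finset.mem_univ _
  · intro δ _
    simp

private theorem ho4_neg_cp {V : Type*} [AddCommGroup V] {k : ℕ} (e : ℕ → V) (ε : Fin k → Bool) :
    -cp e ε = cp e (fun i => !(ε i)) := by
  funext i
  simp only [cp, Pi.neg_apply]
  by_cases hi : ε i = true <;> simp [hi]

theorem sum_cp_succ {V : Type*} [AddCommGroup V] {k : ℕ} (e : ℕ → V)
    (a : (Fin (k + 1) → V) → ZMod 2) (a' : (Fin (k + 2) → V) → ZMod 2)
    (h : ∀ ε : Fin (k + 2) → Bool, cob a (cp e ε) = a' (cp e ε) + a' (-cp e ε)) :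
    ∑ ε : Fin (k + 2) → Bool, a' (cp e ε) = ∑ ε : Fin (k + 1) → Bool, a (cp e ε) := by
  have split : ∀ g : (Fin (k + 2) → Bool) → ZMod 2, ∑ ε : Fin (k + 2) → Bool, g ε =
      ∑ δ : Fin (k + 1) → Bool, (g (Fin.snoc (α := fun _ => Bool) δ true) +
        g (Fin.snoc (α := fun _ => Bool) δ false)) := by
    intro g
    rw [← (Fin.snocEquiv (fun _ : Fin (k + 2) => Bool)).sum_comp, Fintype.sum_prod_type]
    simp only [Fintype.sum_bool, Finset.sum_add_distrib]
    rfl
  have flip : ∑ δ : Fin (k + 1) → Bool, a' (cp e (Fin.snoc (α := fun _ => Bool) δ false)) =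
      ∑ δ : Fin (k + 1) → Bool, a' (-cp e (Fin.snoc (α := fun _ => Bool) δ true)) := by
    have hinv : Function.Involutive (fun δ : Fin (k + 1) → Bool => fun i => !(δ i)) := by
      intro δ; funext i; simp
    rw [← Equiv.sum_comp (hinv.toPerm _)]
    refine Finset.sum_congr rfl fun δ _ => ?_
    rw [ho4_neg_cp]
    congr 1
    congr 1
    funext i
    refine Fin.lastCases ?_ (fun i => ?_) i
    · simp
    · simp [Function.Involutive.coe_toPerm]
  rw [split, Finset.sum_add_distrib, flip, ← Finset.sum_add_distrib]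
  have hc : ∀ δ : Fin (k + 1) → Bool,
      a' (cp e (Fin.snoc (α := fun _ => Bool) δ true)) +
        a' (-cp e (Fin.snoc (α := fun _ => Bool) δ true)) =
      ∑ i : Fin (k + 2), a (cp e (Fin.snoc (α := fun _ => Bool) δ true) ∘ i.succAbove) := by
    intro δ
    rw [← h]
    rfl
  simp only [hc]
  rw [Finset.sum_comm, Fin.sum_univ_castSucc]
  have hz : ∀ j : Fin (k + 1), ∑ δ : Fin (k + 1) → Bool,
      a (cp e (Fin.snoc (α := fun _ => Bool) δ true) ∘ (j.castSucc).succAbove) = 0 := by
    intro j
    refine ho4_sum_eq_zero _ j fun δ => ?_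
    congr 1
    funext i
    simp only [Function.comp, cp]
    have hne : (j.castSucc).succAbove i ≠ j.castSucc := Fin.succAbove_ne _ _
    have hs : (Fin.snoc (α := fun _ => Bool) (Function.update δ j (!(δ j))) true :
        Fin (k + 2) → Bool) ((j.castSucc).succAbove i) =
        (Fin.snoc (α := fun _ => Bool) δ true : Fin (k + 2) → Bool)
          ((j.castSucc).succAbove i) := by
      generalize (j.castSucc).succAbove i = m at hne
      revert hne
      refine Fin.lastCases ?_ (fun m => ?_) m
      · intro _; simp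
      · intro hne
        have hm : m ≠ j := fun h => hne (by rw [h])
        simp [Function.update_of_ne hm]
    rw [hs]
  simp only [hz, Finset.sum_const_zero, zero_add]
  refine Finset.sum_congr rfl fun δ _ => ?_
  congr 1
  funext i
  simp [cp, Function.comp, Fin.succAbove_last]

end Pool.Agent.Helper19.HO
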